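import Mathlib

set_option autoImplicit false

namespace Pool.Agent.H315.BT207

theorem T_bd {C' μ γ c₁ δ β : ℝ} (hC : 1 < C') (hγ : C' ^ γ = μ) (hγ0 : 0 < γ) (N : ℕ)
    (_ : 0 < β) (hβ1 : β ≤ 1) (hβγ : 16 * β ≤ γ) (hc : 0 < c₁) (hc1 : c₁ ≤ 1) (hδ : 0 < δ)
    (hδc : δ ≤ c₁) (h : c₁ / δ ≤ (C' ^ N) ^ 2) : c₁ ^ 8 * δ ^ (-(8 * β)) ≤ μ ^ N := by
  have hC0 : 0 < C' := by linarith
  have h1 : 1 ≤ c₁ / δ := by rw [le_div_iff₀ hδ]; linarith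
  have e1 : ((C' ^ N) ^ 2) ^ (γ / 2) = μ ^ N := by
    rw [← hγ, ← Real.rpow_natCast (C' ^ γ) N, ← Real.rpow_mul hC0.le, ← pow_mul,
      ← Real.rpow_natCast C' (N * 2), ← Real.rpow_mul hC0.le]
    congr 1
    push_cast
    ring
  have e2 : (c₁ / δ) ^ (8 * β) ≤ (c₁ / δ) ^ (γ / 2) :=
    Real.rpow_le_rpow_of_exponent_le h1 (by linarith)
  have e3 : (c₁ / δ) ^ (γ / 2) ≤ ((C' ^ N) ^ 2) ^ (γ / 2) :=
    Real.rpow_le_rpow (by positivity) h (by positivity)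
  have e4 : (c₁ / δ) ^ (8 * β) = c₁ ^ (8 * β) * δ ^ (-(8 * β)) := by
    rw [Real.div_rpow hc.le hδ.le, Real.rpow_neg hδ.le, div_eq_mul_inv]
  have e5 : c₁ ^ 8 ≤ c₁ ^ (8 * β) := by
    have : c₁ ^ (8 : ℕ) = c₁ ^ (8 : ℝ) := by norm_cast
    rw [this]
    exact Real.rpow_le_rpow_of_exponent_ge hc hc1 (by linarith)
  calc c₁ ^ 8 * δ ^ (-(8 * β)) ≤ c₁ ^ (8 * β) * δ ^ (-(8 * β)) :=
        mul_le_mul_of_nonneg_right e5 (Real.rpow_nonneg hδ.le _)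
    _ = (c₁ / δ) ^ (8 * β) := e4.symm
    _ ≤ μ ^ N := (e2.trans e3).trans (le_of_eq e1)

/-- the real numbers of one step -/
structure Ctx (β c₁ σ : ℝ) (M : ℕ) (H δ δ' R P T : ℝ) (m : ℕ) : Prop where
  β0 : 0 < β
  β1 : β ≤ 1
  c0 : 0 < c₁
  c1 : c₁ ≤ 1
  σ0 : 0 < σ
  σ1 : σ ≤ 1
  m1 : 1 ≤ m
  mM : m ≤ M
  δ0 : 0 < δ
  δ1 : δ ≤ 1
  hd1 : δ ^ (1 + β / 8) ≤ δ'
  hd2 : δ' ≤ δ
  R1 : R ≤ 1
  P0 : 0 < P
  RP : R = δ' * P
  h1 : c₁ * T ≤ R ^ m * P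
  T1 : 1 ≤ T
  T2 : c₁ ^ 8 * δ ^ (-(8 * β)) ≤ T
  H1 : 1 ≤ H
  hs : H * δ ^ (β / 4) ≤ σ ^ (2 * M + 2) * c₁ ^ 10

variable {β c₁ σ H δ δ' R P T : ℝ} {M m : ℕ}

theorem Ctx.δ'0 (h : Ctx β c₁ σ M H δ δ' R P T m) : 0 < δ' :=
  lt_of_lt_of_le (Real.rpow_pos_of_pos h.δ0 _) h.hd1

theorem Ctx.R0 (h : Ctx β c₁ σ M H δ δ' R P T m) : 0 < R := by
  rw [h.RP]; exact mul_pos h.δ'0 h.P0

theorem Ctx.h2 (h : Ctx β c₁ σ M H δ δ' R P T m) : c₁ * T * δ' ≤ R ^ (m + 1) := by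
  have e : R ^ (m + 1) = (R ^ m * P) * δ' := by
    rw [pow_succ]
    conv_lhs => rw [show R ^ m * R = R ^ m * (δ' * P) by rw [← h.RP]]
    ring
  rw [e]
  exact mul_le_mul_of_nonneg_right h.h1 h.δ'0.le

theorem Ctx.h2' (h : Ctx β c₁ σ M H δ δ' R P T m) : c₁ * δ' ≤ R ^ (m + 1) := by
  refine le_trans ?_ h.h2
  have h1 := h.T1
  have h2 := mul_pos h.c0 h.δ'0
  nlinarith

theorem Ctx.h3 (h : Ctx β c₁ σ M H δ δ' R P T m) : c₁ * δ' ≤ R ^ 2 :=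
  h.h2'.trans (pow_le_pow_of_le_one h.R0.le h.R1 (by have := h.m1; omega))

/-- powers of `δ` against the small power -/
theorem Ctx.small (h : Ctx β c₁ σ M H δ δ' R P T m) {e : ℝ} (he : β / 4 ≤ e) :
    H * δ ^ e ≤ σ ^ (2 * M + 2) * c₁ ^ 10 := by
  refine le_trans ?_ h.hs
  exact mul_le_mul_of_nonneg_left (Real.rpow_le_rpow_of_exponent_ge h.δ0 h.δ1 he)
    (by linarith [h.H1])

/-- (A) -/
theorem Ctx.A (h : Ctx β c₁ σ M H δ δ' R P T m) : H * δ ≤ (σ * R) ^ (m + 1) := by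
  have hβ := h.β0
  have hδ := h.δ0
  have hσ := h.σ0
  have hc := h.c0
  have e1 : σ ^ (M + 1) ≤ σ ^ (m + 1) :=
    pow_le_pow_of_le_one hσ.le h.σ1 (by have := h.mM; omega)
  have e2 : c₁ * (c₁ ^ 8 * δ ^ (-(8 * β))) * δ ^ (1 + β / 8) ≤ R ^ (m + 1) := by
    refine le_trans ?_ h.h2
    have a1 : c₁ * (c₁ ^ 8 * δ ^ (-(8 * β))) ≤ c₁ * T := mul_le_mul_of_nonneg_left h.T2 hc.le
    exact mul_le_mul a1 h.hd1 (Real.rpow_nonneg hδ.le _)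
      (mul_nonneg hc.le (by linarith [h.T1]))
  have e3 := h.small (e := 8 * β - β / 8) (by linarith)
  have e4 : δ = δ ^ (8 * β - β / 8) * (δ ^ (-(8 * β)) * δ ^ (1 + β / 8)) := by
    rw [← Real.rpow_add hδ, ← Real.rpow_add hδ]
    conv_lhs => rw [← Real.rpow_one δ]
    congr 1
    ring
  have hx : 0 < δ ^ (-(8 * β)) * δ ^ (1 + β / 8) :=
    mul_pos (Real.rpow_pos_of_pos hδ _) (Real.rpow_pos_of_pos hδ _)
  have e5 : σ ^ (2 * M + 2) * c₁ ^ 10 ≤ σ ^ (M + 1) * c₁ ^ 9 := by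
    apply mul_le_mul
    · exact pow_le_pow_of_le_one hσ.le h.σ1 (by omega)
    · exact pow_le_pow_of_le_one hc.le h.c1 (by omega)
    · positivity
    · positivity
  rw [mul_pow]
  calc H * δ = H * δ ^ (8 * β - β / 8) * (δ ^ (-(8 * β)) * δ ^ (1 + β / 8)) := by
        conv_lhs => rw [e4]
        ring
    _ ≤ σ ^ (M + 1) * c₁ ^ 9 * (δ ^ (-(8 * β)) * δ ^ (1 + β / 8)) :=
        mul_le_mul_of_nonneg_right (e3.trans e5) hx.le
    _ = σ ^ (M + 1) * (c₁ * (c₁ ^ 8 * δ ^ (-(8 * β))) * δ ^ (1 + β / 8)) := by ring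
    _ ≤ σ ^ (m + 1) * R ^ (m + 1) := mul_le_mul e1 e2 (by positivity) (by positivity)

/-- (B) -/
theorem Ctx.B (h : Ctx β c₁ σ M H δ δ' R P T m) {y : ℝ} (hy : (σ * R) ^ (1 + β) ≤ y) :
    H ≤ y ^ m * P := by
  have hβ := h.β0
  have hβ1 := h.β1
  have hδ := h.δ0
  have hσ := h.σ0
  have hc := h.c0
  have hR := h.R0
  have hP := h.P0
  have hσR : 0 < σ * R := mul_pos hσ hR
  have e1 : ((σ * R) ^ (1 + β)) ^ m ≤ y ^ m := pow_le_pow_left₀ (Real.rpow_nonneg hσR.le _) hy m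
  have e2 : ((σ * R) ^ (1 + β)) ^ m = (σ ^ (1 + β)) ^ m * (R ^ m * (R ^ m) ^ β) := by
    rw [Real.mul_rpow hσ.le hR.le, mul_pow]
    congr 1
    rw [Real.rpow_add hR, Real.rpow_one, mul_pow, ← Real.rpow_natCast (R ^ β) m,
      ← Real.rpow_natCast R m, ← Real.rpow_mul hR.le, ← Real.rpow_mul hR.le, mul_comm β (m : ℝ)]
  have e3 : σ ^ (2 * M) ≤ (σ ^ (1 + β)) ^ m := by
    have a1 : σ ^ 2 ≤ σ ^ (1 + β) := by
      have : σ ^ (2 : ℕ) = σ ^ (2 : ℝ) := by norm_cast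
      rw [this]
      exact Real.rpow_le_rpow_of_exponent_ge hσ h.σ1 (by linarith)
    calc σ ^ (2 * M) ≤ σ ^ (2 * m) :=
          pow_le_pow_of_le_one hσ.le h.σ1 (by have := h.mM; omega)
      _ = (σ ^ 2) ^ m := by rw [pow_mul]
      _ ≤ (σ ^ (1 + β)) ^ m := pow_le_pow_left₀ (by positivity) a1 m
  have e4 : c₁ * δ ^ (2 * β) ≤ (R ^ m) ^ β := by
    have a1 : c₁ * δ ^ (2 : ℝ) ≤ R ^ m := by
      calc c₁ * δ ^ (2 : ℝ) ≤ c₁ * δ ^ (1 + β / 8) :=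
            mul_le_mul_of_nonneg_left (Real.rpow_le_rpow_of_exponent_ge hδ h.δ1 (by linarith)) hc.le
        _ ≤ c₁ * δ' := mul_le_mul_of_nonneg_left h.hd1 hc.le
        _ ≤ R ^ (m + 1) := h.h2'
        _ ≤ R ^ m := pow_le_pow_of_le_one hR.le h.R1 (by omega)
    have a2 : (c₁ * δ ^ (2 : ℝ)) ^ β ≤ (R ^ m) ^ β :=
      Real.rpow_le_rpow (by positivity) a1 hβ.le
    rw [Real.mul_rpow hc.le (by positivity), ← Real.rpow_mul hδ.le] at a2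
    refine le_trans ?_ a2
    apply mul_le_mul_of_nonneg_right _ (by positivity)
    calc c₁ = c₁ ^ (1 : ℝ) := (Real.rpow_one _).symm
      _ ≤ c₁ ^ β := Real.rpow_le_rpow_of_exponent_ge hc h.c1 hβ1
  have e5 := h.small (e := 6 * β) (by linarith)
  have e6 : δ ^ (-(8 * β)) * δ ^ (2 * β) * δ ^ (6 * β) = 1 := by
    rw [← Real.rpow_add hδ, ← Real.rpow_add hδ]
    rw [show -(8 * β) + 2 * β + 6 * β = 0 by ring, Real.rpow_zero]
  have e7 : H ≤ σ ^ (2 * M + 2) * c₁ ^ 10 * (δ ^ (-(8 * β)) * δ ^ (2 * β)) := by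
    calc H = H * δ ^ (6 * β) * (δ ^ (-(8 * β)) * δ ^ (2 * β)) := by
          linear_combination (-H) * e6
      _ ≤ _ := mul_le_mul_of_nonneg_right e5 (by positivity)
  calc H ≤ σ ^ (2 * M + 2) * c₁ ^ 10 * (δ ^ (-(8 * β)) * δ ^ (2 * β)) := e7
    _ ≤ σ ^ (2 * M) * c₁ ^ 10 * (δ ^ (-(8 * β)) * δ ^ (2 * β)) := by
        apply mul_le_mul_of_nonneg_right _ (by positivity)
        apply mul_le_mul_of_nonneg_right _ (by positivity)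
        exact pow_le_pow_of_le_one hσ.le h.σ1 (by omega)
    _ = σ ^ (2 * M) * (c₁ * (c₁ ^ 8 * δ ^ (-(8 * β)))) * (c₁ * δ ^ (2 * β)) := by ring
    _ ≤ (σ ^ (1 + β)) ^ m * (R ^ m * P) * (R ^ m) ^ β := by
        apply mul_le_mul _ e4 (by positivity) (by positivity)
        apply mul_le_mul e3 _ (by positivity) (by positivity)
        exact (mul_le_mul_of_nonneg_left h.T2 hc.le).trans h.h1
    _ = ((σ * R) ^ (1 + β)) ^ m * P := by rw [e2]; ring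
    _ ≤ y ^ m * P := mul_le_mul_of_nonneg_right e1 h.P0.le

/-- (C) -/
theorem Ctx.C (h : Ctx β c₁ σ M H δ δ' R P T m) {y : ℝ} (hy : (σ * R) ^ (1 + β) ≤ y) :
    δ ^ (1 + β) * (H * P) ≤ y := by
  have hβ := h.β0
  have hβ1 := h.β1
  have hδ := h.δ0
  have hσ := h.σ0
  have hc := h.c0
  have hR := h.R0
  have hP := h.P0
  have hd := h.δ'0
  have e1 : (σ * R) ^ (1 + β) = σ ^ (1 + β) * (R * R ^ β) := by
    rw [Real.mul_rpow hσ.le hR.le, Real.rpow_add hR, Real.rpow_one]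
  have e2 : σ ^ 2 ≤ σ ^ (1 + β) := by
    have : σ ^ (2 : ℕ) = σ ^ (2 : ℝ) := by norm_cast
    rw [this]
    exact Real.rpow_le_rpow_of_exponent_ge hσ h.σ1 (by linarith)
  have e3 : c₁ * δ ^ ((1 + β / 8) * (β / 2)) ≤ R ^ β := by
    have a0 : R ^ β = (R ^ 2) ^ (β / 2) := by
      rw [← Real.rpow_natCast R 2, ← Real.rpow_mul hR.le]
      congr 1
      push_cast
      ring
    have a1 : c₁ * δ ^ (1 + β / 8) ≤ R ^ 2 :=
      (mul_le_mul_of_nonneg_left h.hd1 hc.le).trans h.h3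
    have a2 : (c₁ * δ ^ (1 + β / 8)) ^ (β / 2) ≤ (R ^ 2) ^ (β / 2) :=
      Real.rpow_le_rpow (by positivity) a1 (by positivity)
    rw [a0]
    refine le_trans ?_ a2
    rw [Real.mul_rpow hc.le (by positivity), ← Real.rpow_mul hδ.le]
    apply mul_le_mul_of_nonneg_right _ (by positivity)
    calc c₁ = c₁ ^ (1 : ℝ) := (Real.rpow_one _).symm
      _ ≤ c₁ ^ (β / 2) := Real.rpow_le_rpow_of_exponent_ge hc h.c1 (by linarith)
  have e4 := h.small (e := 1 + β - (1 + β / 8) - (1 + β / 8) * (β / 2)) (by nlinarith)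
  have e5 : δ ^ (1 + β) = δ ^ (1 + β - (1 + β / 8) - (1 + β / 8) * (β / 2)) *
      (δ ^ (1 + β / 8) * δ ^ ((1 + β / 8) * (β / 2))) := by
    rw [← Real.rpow_add hδ, ← Real.rpow_add hδ]
    congr 1
    ring
  have e6 : σ ^ (2 * M + 2) * c₁ ^ 10 ≤ σ ^ 2 * c₁ := by
    apply mul_le_mul
    · exact pow_le_pow_of_le_one hσ.le h.σ1 (by omega)
    · calc c₁ ^ 10 ≤ c₁ ^ 1 := pow_le_pow_of_le_one hc.le h.c1 (by omega)
        _ = c₁ := pow_one _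
    · positivity
    · positivity
  calc δ ^ (1 + β) * (H * P) =
      (H * δ ^ (1 + β - (1 + β / 8) - (1 + β / 8) * (β / 2))) *
        (δ ^ (1 + β / 8) * δ ^ ((1 + β / 8) * (β / 2))) * P := by rw [e5]; ring
    _ ≤ (σ ^ 2 * c₁) * (δ' * δ ^ ((1 + β / 8) * (β / 2))) * P := by
        apply mul_le_mul_of_nonneg_right _ hP.le
        apply mul_le_mul (e4.trans e6) _ (by positivity) (by positivity)
        exact mul_le_mul_of_nonneg_right h.hd1 (by positivity)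
    _ = σ ^ 2 * ((δ' * P) * (c₁ * δ ^ ((1 + β / 8) * (β / 2)))) := by ring
    _ ≤ σ ^ (1 + β) * (R * R ^ β) := by
        rw [← h.RP]
        apply mul_le_mul e2 _ (by positivity) (by positivity)
        exact mul_le_mul_of_nonneg_left e3 hR.le
    _ = (σ * R) ^ (1 + β) := e1.symm
    _ ≤ y := hy

end Pool.Agent.H315.BT207
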