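import Pool.Agent.H207.BT.Stm2
import Pool.Agent.H315.BT207.VTR

/-!
# Project BT of helper207: the recursion (S_VT)
-/

set_option autoImplicit false

open Topology Filter Metric Set MeasureTheory

namespace Pool.Agent.H315.BT207

open Pool.Agent.H790R3.RB Pool.Agent.H211.HY Pool.Agent.H207.BT

/-! ### small lemmas -/

theorem ev_lt {a : ℝ} (ha : 0 < a) : ∀ᶠ δ in 𝓝[>] (0 : ℝ), δ < a :=
  (eventually_lt_nhds ha).filter_mono nhdsWithin_le_nhds

theorem ev_rpow {e a : ℝ} (he : 0 < e) (ha : 0 < a) : ∀ᶠ δ in 𝓝[>] (0 : ℝ), δ ^ e < a := by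
  have h := (Real.continuousAt_rpow_const 0 e (Or.inr he.le)).tendsto
  rw [Real.zero_rpow he.ne'] at h
  exact (h.eventually (eventually_lt_nhds ha)).filter_mono nhdsWithin_le_nhds

theorem exists_lb (x : ℕ → ℝ) (hx : ∀ n, 0 < x n) (N : ℕ) : ∃ ξ > (0 : ℝ), ∀ n < N, ξ ≤ x n := by
  induction N with
  | zero => exact ⟨1, one_pos, fun n hn => absurd hn (Nat.not_lt_zero n)⟩
  | succ N ih =>
    obtain ⟨ξ, h0, h⟩ := ih
    refine ⟨min ξ (x N), lt_min h0 (hx N), fun n hn => ?_⟩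
    rcases Nat.lt_succ_iff_lt_or_eq.mp hn with h' | h'
    · exact (min_le_left _ _).trans (h n h')
    · rw [h']; exact min_le_right _ _

section
variable {k : ℕ} {i : Fin k} {f : ℕ → (Fin k → ℂ) → ℂ → ℂ} {v : (Fin k → ℂ) → ℂ}
    {z : ℕ → ℂ} {x : ℕ → ℝ} {ρ C c μ : ℝ} {κ : ℂ}

theorem p_zero (f : ℕ → (Fin k → ℂ) → ℂ → ℂ) (z : ℕ → ℂ) : ‖DD f z 0‖ = 1 := by
  simp [DD]

theorem p_succ (G : Good i f v z x ρ C c μ κ) (n : ℕ) :
    ‖DD f z (n + 1)‖ ≤ C * x n * ‖DD f z n‖ := by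
  unfold DD
  rw [Finset.prod_range_succ, norm_mul, mul_comm]
  exact mul_le_mul_of_nonneg_right (G.dx n).2 (norm_nonneg _)

theorem p_ge (G : Good i f v z x ρ C c μ κ) (n : ℕ) : c ≤ ‖DD f z n‖ := by
  refine le_trans ?_ (G.gr n)
  have h1 : 1 ≤ μ ^ n := one_le_pow₀ G.μ1.le
  have := G.c0
  nlinarith

theorem p_le (G : Good i f v z x ρ C c μ κ) {C' : ℝ} (hC : C ≤ C') (n : ℕ) :
    ‖DD f z n‖ ≤ C' ^ n := by
  have hC0 : 0 ≤ C := by linarith [G.C1]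
  induction n with
  | zero => rw [p_zero]; simp
  | succ n ih =>
    refine (p_succ G n).trans ?_
    have h1 : C * x n ≤ C' := by
      have := (G.xx n).2
      have h0 := (G.xx n).1
      nlinarith
    rw [pow_succ, mul_comm (C' ^ n)]
    exact mul_le_mul h1 ih (norm_nonneg _) (by linarith)

end

theorem VT_mono {k : ℕ} {z : Fin k → ℕ → ℂ} {RP : Fin k → ℕ → (Fin k → ℂ) → ℂ → Prop}
    {β β' K : ℝ} {i : Fin k} {δ : ℝ} (hδ : 0 < δ) (hδ1 : δ ≤ 1) (hK : 0 < K) (hβ : β' ≤ β)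
    (h : VT z RP β' K i δ) : VT z RP β K i δ := by
  obtain ⟨w, h1, h2, h3, h4⟩ := h
  have e1 : δ ^ (1 + β) ≤ δ ^ (1 + β') :=
    Real.rpow_le_rpow_of_exponent_ge hδ hδ1 (by linarith)
  have hsub : ball (0 : Fin k → ℂ) (δ ^ (1 + β) / K) ⊆ ball 0 (δ ^ (1 + β') / K) :=
    ball_subset_ball (div_le_div_of_nonneg_right e1 hK.le)
  exact ⟨w, e1.trans h1, h2, fun s hs s' hs' => h3 s (hsub hs) s' (hsub hs'),
    fun s hs => h4 s (hsub hs)⟩

section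
variable {k : ℕ} {f : Fin k → ℕ → (Fin k → ℂ) → ℂ → ℂ} {v : Fin k → (Fin k → ℂ) → ℂ}
    {z : Fin k → ℕ → ℂ} {x : Fin k → ℕ → ℝ} {ρ C c μ : ℝ} {κ : Fin k → ℂ} {m : Fin k → ℕ}
    {RP : Fin k → ℕ → (Fin k → ℂ) → ℂ → Prop} {η B : ℝ}

/-- the base -/
theorem base1 (S : Sett f v z x ρ C c μ κ m RP η B) {β δ₁ : ℝ} (hβ : 0 < β)
    (hδ₁1 : δ₁ ≤ 1) (h8 : 8 * δ₁ ^ β ≤ 1) {ε : ℝ} (hε : 0 < ε) (hε1 : ε ≤ 1) :
    ∃ Km : ℝ, 1 ≤ Km ∧ ∀ K, Km ≤ K → ∀ (i : Fin k) (δ : ℝ), ε ≤ δ → δ ≤ 2 * ε → δ ≤ δ₁ →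
      VT z RP β K i δ := by
  obtain ⟨ρ₁, hρ₁, L, hfar⟩ := S.far ε hε hε1
  refine ⟨max 1 (max L (1 / ρ₁)), le_max_left _ _, fun K hK i δ h1 h2 h3 => ?_⟩
  have hK1 : 1 ≤ K := (le_max_left _ _).trans hK
  have hKL : L ≤ K := ((le_max_left _ _).trans (le_max_right _ _)).trans hK
  have hKρ : 1 / ρ₁ ≤ K := ((le_max_right _ _).trans (le_max_right _ _)).trans hK
  have hK0 : 0 < K := by linarith
  have hδ : 0 < δ := by linarith
  obtain ⟨q, hq1, hq2, hq3, hq4⟩ := hfar i 0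
  have hδβ : δ ^ (1 + β) ≤ δ := by
    calc δ ^ (1 + β) ≤ δ ^ (1 : ℝ) :=
          Real.rpow_le_rpow_of_exponent_ge hδ (h3.trans hδ₁1) (by linarith)
      _ = δ := Real.rpow_one _
  have hsub : ball (0 : Fin k → ℂ) (δ ^ (1 + β) / K) ⊆ ball 0 ρ₁ := by
    apply ball_subset_ball
    rw [div_le_iff₀ hK0]
    have : 1 ≤ ρ₁ * K := by
      rw [div_le_iff₀ hρ₁] at hKρ
      linarith
    linarith
  refine ⟨q, ?_, hq3.trans h1, ?_, fun s hs => hq4 s (hsub hs)⟩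
  · refine le_trans ?_ hq2
    have e1 : δ ^ β ≤ δ₁ ^ β := Real.rpow_le_rpow hδ.le h3 hβ.le
    rw [Real.rpow_add hδ, Real.rpow_one]
    have e2 : δ ^ β ≤ 1 / 8 := by linarith
    have e3 : 0 ≤ δ ^ β := Real.rpow_nonneg hδ.le _
    nlinarith
  · intro s hs s' hs'
    refine (hq1 s (hsub hs) s' (hsub hs')).trans ?_
    exact mul_le_mul_of_nonneg_right hKL (norm_nonneg _)

theorem base (S : Sett f v z x ρ C c μ κ m RP η B) {β δ₁ : ℝ} (hβ : 0 < β) (hδ₁ : 0 < δ₁)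
    (hδ₁1 : δ₁ ≤ 1) (h8 : 8 * δ₁ ^ β ≤ 1) (n : ℕ) :
    ∃ Km : ℝ, 1 ≤ Km ∧ ∀ K, Km ≤ K → ∀ (i : Fin k) (δ : ℝ), δ₁ / 2 ^ n ≤ δ → δ ≤ δ₁ →
      VT z RP β K i δ := by
  induction n with
  | zero =>
    obtain ⟨Km, h1, h2⟩ := base1 S hβ hδ₁1 h8 hδ₁ hδ₁1
    refine ⟨Km, h1, fun K hK i δ h3 h4 => h2 K hK i δ ?_ ?_ h4⟩
    · simpa using h3
    · linarith
  | succ n ih =>
    obtain ⟨Km, h1, h2⟩ := ih
    have hε : 0 < δ₁ / 2 ^ (n + 1) := by positivity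
    have hε1 : δ₁ / 2 ^ (n + 1) ≤ 1 := by
      rw [div_le_one (by positivity)]
      exact hδ₁1.trans (one_le_pow₀ (by norm_num))
    obtain ⟨Km', h1', h2'⟩ := base1 S hβ hδ₁1 h8 hε hε1
    refine ⟨max Km Km', h1.trans (le_max_left _ _), fun K hK i δ h3 h4 => ?_⟩
    by_cases h5 : δ₁ / 2 ^ n ≤ δ
    · exact h2 K ((le_max_left _ _).trans hK) i δ h5 h4
    · refine h2' K ((le_max_right _ _).trans hK) i δ h3 ?_ h4
      have e : 2 * (δ₁ / 2 ^ (n + 1)) = δ₁ / 2 ^ n := by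
        rw [pow_succ]; field_simp
      rw [e]
      exact (not_le.mp h5).le

/-- the end of a step -/
theorem finish (S : Sett f v z x ρ C c μ κ m RP η B) (i : Fin k) {K₀ δ' δ β K : ℝ} {N : ℕ}
    (hK₀ : 1 ≤ K₀) (hK : 0 < K) (hδ : 0 < δ) (hrρ : δ ^ (1 + β) / K ≤ ρ) (hd2 : δ' ≤ δ)
    (hpull : ∀ (u : (Fin k → ℂ) → ℂ) (r Λ : ℝ), 0 < r → 0 ≤ Λ → K₀ * r ≤ δ' →
          K₀ * Λ * r ≤ δ' * ‖DD (f i) (z i) N‖ →
          (∀ s ∈ ball (0 : Fin k → ℂ) r, ∀ s' ∈ ball (0 : Fin k → ℂ) r,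
            ‖u s - u s'‖ ≤ Λ * ‖s - s'‖) →
          K₀ * ‖u 0 - z i N‖ ≤ δ' * ‖DD (f i) (z i) N‖ →
          ∃ w : (Fin k → ℂ) → ℂ,
            (∀ s ∈ ball (0 : Fin k → ℂ) r, ∀ s' ∈ ball (0 : Fin k → ℂ) r,
              ‖w s - w s'‖ ≤ (K₀ + K₀ * Λ / ‖DD (f i) (z i) N‖) * ‖s - s'‖) ∧
            ‖u 0 - z i N‖ ≤ K₀ * ‖DD (f i) (z i) N‖ * ‖w 0 - z i 0‖ ∧
            ‖DD (f i) (z i) N‖ * ‖w 0 - z i 0‖ ≤ K₀ * ‖u 0 - z i N‖ ∧
            ∀ s ∈ ball (0 : Fin k → ℂ) r, YY (f i) w N s = u s ∧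
              ∀ n < N, ‖YY (f i) w n s - z i n‖ < ρ ∧
                ‖s‖ + ‖YY (f i) w n s - z i n‖ ≤ x i n / (2 * C))
    (hKr : K₀ * (δ ^ (1 + β) / K) ≤ δ') (u : (Fin k → ℂ) → ℂ) {Λ : ℝ} (hΛ : 0 ≤ Λ)
    (h1 : K₀ * Λ * (δ ^ (1 + β) / K) ≤ δ' * ‖DD (f i) (z i) N‖)
    (h2 : ∀ s ∈ ball (0 : Fin k → ℂ) (δ ^ (1 + β) / K), ∀ s' ∈ ball (0 : Fin k → ℂ)
      (δ ^ (1 + β) / K), ‖u s - u s'‖ ≤ Λ * ‖s - s'‖)
    (h3 : K₀ * ‖u 0 - z i N‖ ≤ δ' * ‖DD (f i) (z i) N‖)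
    (h4 : K₀ + K₀ * Λ / ‖DD (f i) (z i) N‖ ≤ K)
    (h5 : δ ^ (1 + β) * (K₀ * ‖DD (f i) (z i) N‖) ≤ ‖u 0 - z i N‖)
    (h6 : ∀ s ∈ ball (0 : Fin k → ℂ) (δ ^ (1 + β) / K), RP i N s (u s)) :
    VT z RP β K i δ := by
  have hr : 0 < δ ^ (1 + β) / K := div_pos (Real.rpow_pos_of_pos hδ _) hK
  obtain ⟨w, g1, g2, g3, g4⟩ := hpull u _ Λ hr hΛ hKr h1 h2 h3
  have hP : 0 < ‖DD (f i) (z i) N‖ := lt_of_lt_of_le (S.good i).c0 (p_ge (S.good i) N)
  refine ⟨w, ?_, ?_, ?_, ?_⟩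
  · have e := h5.trans g2
    rw [mul_comm] at e
    exact le_of_mul_le_mul_left e (by positivity)
  · have e := g3.trans h3
    rw [mul_comm] at e
    exact (le_of_mul_le_mul_right e hP).trans hd2
  · intro s hs s' hs'
    exact (g1 s hs s' hs').trans (mul_le_mul_of_nonneg_right h4 (norm_nonneg _))
  · intro s hs
    have hs' : ‖s‖ < ρ := by
      rw [mem_ball_zero_iff] at hs
      linarith
    refine S.tran i N s w hs' (g4 s hs).2 ?_
    rw [(g4 s hs).1]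
    exact h6 s hs

/-- one step, the real numbers of the close case -/
theorem close_real (S : Sett f v z x ρ C c μ κ m RP η B) (i : Fin k) {c₁ δ' R : ℝ} {N l' : ℕ}
    (_ : 0 < c₁) (hc₁B : c₁ * B ≤ c) (_ : R = δ' * ‖DD (f i) (z i) N‖) (hxR : x i N ≤ R)
    (hcl : ‖DD (f i) (z i) (N + 1)‖ ≤ B * x i N ^ l' * ‖DD (f i) (z i) N‖) :
    c₁ * μ ^ N ≤ R ^ l' * ‖DD (f i) (z i) N‖ := by
  have G := S.good i
  have hP : 0 < ‖DD (f i) (z i) N‖ := lt_of_lt_of_le G.c0 (p_ge G N)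
  have hB : 0 < B := by linarith [S.B1]
  have hμ : 0 < μ := by linarith [G.μ1]
  have h1 := G.gr (N + 1)
  have h2 : μ ^ N ≤ μ ^ (N + 1) := pow_le_pow_right₀ G.μ1.le (by omega)
  have h3 : x i N ^ l' ≤ R ^ l' := pow_le_pow_left₀ (G.xx N).1.le hxR l'
  have h4 : B * (c₁ * μ ^ N) ≤ B * (R ^ l' * ‖DD (f i) (z i) N‖) := by
    calc B * (c₁ * μ ^ N) = (c₁ * B) * μ ^ N := by ring
      _ ≤ c * μ ^ (N + 1) := mul_le_mul hc₁B h2 (by positivity) G.c0.le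
      _ ≤ B * x i N ^ l' * ‖DD (f i) (z i) N‖ := h1.trans hcl
      _ = B * (x i N ^ l' * ‖DD (f i) (z i) N‖) := by ring
      _ ≤ B * (R ^ l' * ‖DD (f i) (z i) N‖) :=
          mul_le_mul_of_nonneg_left (mul_le_mul_of_nonneg_right h3 hP.le) hB.le
  exact le_of_mul_le_mul_left h4 hB

/-- one step -/
theorem step (S : Sett f v z x ρ C c μ κ m RP η B) (h1 : S_PULL) (h2 : S_SCALE3)
    {β γ C' δ₁ : ℝ} (hC' : 1 < C') (hCC : C ≤ C') (hγ : C' ^ γ = μ) (hγ0 : 0 < γ) (hβ0 : 0 < β)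
    (hβ1 : β ≤ 1) (hβγ : 16 * β ≤ γ) (hδ₁ : 0 < δ₁) (hδ₁1 : δ₁ ≤ 1) (hδη : δ₁ ≤ η) (i : Fin k) :
    ∃ Km : ℝ, 1 ≤ Km ∧ ∀ᶠ δ in 𝓝[>] (0 : ℝ), ∀ K, Km ≤ K →
      (∀ (l : Fin k) (δ'' : ℝ), 2 * δ ≤ δ'' → δ'' ≤ δ₁ → VT z RP β K l δ'') →
      VT z RP β K i δ := by
  have G := S.good i
  have hc0 := G.c0
  have hB1 := S.B1
  have hB0 : 0 < B := by linarith
  have hη := S.η0
  obtain ⟨K₀, hK₀, θ₀, hθ₀, r₀, hr₀, N₀, hpull⟩ := h1 k i (f i) (v i) (z i) (x i) ρ C c μ (κ i) G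
  have hK₀0 : 0 < K₀ := by linarith
  have hC0 : 0 < C := by linarith [G.C1]
  obtain ⟨ε', hε', r₁, hr₁, hscale⟩ := h2 C c μ (fun n => ‖DD (f i) (z i) n‖) (x i) G.C1 G.c0 G.μ1
    (p_zero _ _) G.gr G.xx (p_succ G) (β / 8) (by positivity) (min θ₀ (1 / C))
    (lt_min hθ₀ (by positivity)) (2 * K₀ * B) (by positivity)
  set ε₀ : ℝ := min ε' (min η 1) with hε₀d
  have hε₀ : 0 < ε₀ := lt_min hε' (lt_min hη one_pos)
  have hε₀1 : ε₀ ≤ 1 := (min_le_right _ _).trans (min_le_right _ _)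
  have hε₀η : ε₀ ≤ η := (min_le_right _ _).trans (min_le_left _ _)
  have hε₁ : 0 < ε₀ / K₀ := by positivity
  have hε₁1 : ε₀ / K₀ ≤ 1 := by rw [div_le_one hK₀0]; linarith
  obtain ⟨ρ₁, hρ₁, L, hfar⟩ := S.far (ε₀ / K₀) hε₁ hε₁1
  set L' : ℝ := max L 0 with hL'
  have hL'0 : 0 ≤ L' := le_max_right _ _
  obtain ⟨M, hM⟩ : ∃ M, ∀ l, m l ≤ M := ⟨Finset.univ.sup m, fun l => Finset.le_sup (Finset.mem_univ l)⟩
  set c₁ : ℝ := min (c / B) 1 with hc₁d
  have hc₁0 : 0 < c₁ := lt_min (by positivity) one_pos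
  have hc₁1 : c₁ ≤ 1 := min_le_right _ _
  have hc₁B : c₁ * B ≤ c := by
    have : c₁ ≤ c / B := min_le_left _ _
    rwa [le_div_iff₀ hB0] at this
  set σ : ℝ := min δ₁ (1 / (2 * K₀ * B)) with hσd
  have hσ0 : 0 < σ := lt_min hδ₁ (by positivity)
  have hσδ : σ ≤ δ₁ := min_le_left _ _
  have hσ1 : σ ≤ 1 := hσδ.trans hδ₁1
  have hσK : σ * (2 * K₀ * B) ≤ 1 := by
    have : σ ≤ 1 / (2 * K₀ * B) := min_le_right _ _
    rwa [le_div_iff₀ (by positivity)] at this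
  set H : ℝ := 2 + 2 * K₀ * B with hHd
  have hKB : 0 < K₀ * B := by positivity
  have hH1 : 1 ≤ H := by linarith
  have hH2 : 2 ≤ H := by linarith
  have hHB : B ≤ H := by
    have := le_mul_of_one_le_left hB0.le hK₀
    linarith
  obtain ⟨ξ, hξ0, hξ⟩ := exists_lb (x i) (fun n => (G.xx n).1) N₀
  have hC'0 : 0 < C' := by linarith
  refine ⟨2 * K₀ + K₀ * L' / c, by
    have : 0 ≤ K₀ * L' / c := by positivity
    linarith, ?_⟩
  have ha1 : 0 < ε₀ / (K₀ * L' + 1) := by positivity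
  have ha2 : 0 < ε₀ / C' ^ N₀ := by positivity
  have ha3 : 0 < 2 * K₀ * B * ξ / C' ^ N₀ := by positivity
  have ha4 : 0 < σ ^ (2 * M + 2) * c₁ ^ 10 / H := by positivity
  have ha5 : 0 < ε₀ / K₀ / (4 * K₀) := by positivity
  filter_upwards [self_mem_nhdsWithin, ev_lt one_pos, ev_lt hr₀, ev_lt hr₁, ev_lt hc₁0, ev_lt hρ₁,
    ev_lt G.ρ0, ev_lt ha1, ev_lt ha2, ev_lt ha3, ev_rpow (e := β / 4) (by positivity) ha4,
    ev_rpow (e := 7 * β / 8) (by positivity) ha5] with δ q0 q1 q2 q3 q4 q5 q6 q7 q8 q9 q10 q11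
  intro K hK hVT
  have hδ : 0 < δ := q0
  have hδ1 : δ ≤ 1 := q1.le
  have hKL : 0 ≤ K₀ * L' / c := by positivity
  have hK2 : 2 * K₀ ≤ K := by linarith
  have hK1 : 1 ≤ K := by linarith
  have hK0 : 0 < K := by linarith
  obtain ⟨δ', hd1, hd2, N, hsum, halt⟩ := hscale δ hδ q3.le
  have hd0 : 0 < δ' := lt_of_lt_of_le (Real.rpow_pos_of_pos hδ _) hd1
  have hP : 0 < ‖DD (f i) (z i) N‖ := lt_of_lt_of_le G.c0 (p_ge G N)
  have hPc := p_ge G N
  set P : ℝ := ‖DD (f i) (z i) N‖ with hPd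
  have hR0 : 0 < δ' * P := mul_pos hd0 hP
  have hδβ1 : δ ^ (1 + β) ≤ δ := by
    calc δ ^ (1 + β) ≤ δ ^ (1 : ℝ) := Real.rpow_le_rpow_of_exponent_ge hδ hδ1 (by linarith)
      _ = δ := Real.rpow_one _
  have hδβ0 : 0 < δ ^ (1 + β) := Real.rpow_pos_of_pos hδ _
  have hδα : δ ^ (1 + β) ≤ δ' :=
    (Real.rpow_le_rpow_of_exponent_ge hδ hδ1 (by linarith)).trans hd1
  have hrδ : δ ^ (1 + β) / K ≤ δ := by
    rw [div_le_iff₀ hK0]
    exact hδβ1.trans (le_mul_of_one_le_right hδ.le hK1)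
  have hrρ : δ ^ (1 + β) / K ≤ ρ := hrδ.trans q6.le
  have hr0 : 0 < δ ^ (1 + β) / K := div_pos hδβ0 hK0
  have hKr : K₀ * (δ ^ (1 + β) / K) ≤ δ' := by
    rw [mul_div_assoc', div_le_iff₀ hK0]
    calc K₀ * δ ^ (1 + β) ≤ K * δ' := mul_le_mul (by linarith) hδα hδβ0.le hK0.le
      _ = δ' * K := mul_comm _ _
  -- `R ≤ 1`
  have hR1 : δ' * P ≤ 1 := by
    rcases Nat.eq_zero_or_pos N with hN | hN
    · rw [hPd, hN, p_zero]; linarith
    · obtain ⟨N', rfl⟩ : ∃ N', N = N' + 1 := ⟨N - 1, by omega⟩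
      have e1 := p_succ G N'
      have e2 : δ' * ‖DD (f i) (z i) N'‖ / x i N' ≤ 1 / C := by
        refine le_trans ?_ (hsum.trans (min_le_right _ _))
        refine Finset.single_le_sum (f := fun n => δ' * ‖DD (f i) (z i) n‖ / x i n)
          (fun n _ => ?_) (Finset.mem_range.mpr (Nat.lt_succ_self N'))
        exact div_nonneg (mul_nonneg hd0.le (norm_nonneg _)) (G.xx n).1.le
      have hx0 := (G.xx N').1
      have hx1 := (G.xx N').2
      rw [div_le_div_iff₀ hx0 hC0, one_mul] at e2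
      have e3 : δ' * P ≤ (δ' * ‖DD (f i) (z i) N'‖ * C) * x i N' := by
        calc δ' * P ≤ δ' * (C * x i N' * ‖DD (f i) (z i) N'‖) := mul_le_mul_of_nonneg_left e1 hd0.le
          _ = _ := by ring
      refine e3.trans ?_
      calc (δ' * ‖DD (f i) (z i) N'‖ * C) * x i N' ≤ x i N' * x i N' :=
            mul_le_mul_of_nonneg_right e2 hx0.le
        _ ≤ 1 := mul_le_one₀ hx1 hx0.le hx1
  -- `N ≥ N₀`
  have hNN : N₀ ≤ N := by
    by_contra hcon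
    rw [not_le] at hcon
    have e1 : δ' * P ≤ δ * C' ^ N₀ := by
      apply mul_le_mul hd2 _ hP.le hδ.le
      exact (p_le G hCC N).trans (pow_le_pow_right₀ hC'.le hcon.le)
    rw [lt_div_iff₀ (by positivity)] at q8 q9
    rcases halt with h | h
    · have : ε₀ ≤ δ' * P := (min_le_left _ _).trans h
      linarith
    · have h3 := hξ N hcon
      have : 2 * K₀ * B * ξ ≤ 2 * K₀ * B * x i N := mul_le_mul_of_nonneg_left h3 (by positivity)
      linarith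
  have hpl := hpull δ' N hd0 (hd2.trans q2.le) hNN (hsum.trans (min_le_left _ _))
  by_cases hfc : ε₀ ≤ δ' * P
  · -- far
    obtain ⟨u, hu1, hu2, hu3, hu4⟩ := hfar i N
    have hsub : ball (0 : Fin k → ℂ) (δ ^ (1 + β) / K) ⊆ ball 0 ρ₁ :=
      ball_subset_ball (hrδ.trans q5.le)
    refine finish S i hK₀ hK0 hδ hrρ hd2 hpl hKr u hL'0 ?_ ?_ ?_ ?_ ?_
      (fun s hs => hu4 s (hsub hs))
    · refine le_trans ?_ hfc
      rw [lt_div_iff₀ (by positivity)] at q7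
      have e1 : K₀ * L' * (δ ^ (1 + β) / K) ≤ K₀ * L' * δ :=
        mul_le_mul_of_nonneg_left hrδ (by positivity)
      linarith
    · intro s hs s' hs'
      exact (hu1 s (hsub hs) s' (hsub hs')).trans
        (mul_le_mul_of_nonneg_right (le_max_left _ _) (norm_nonneg _))
    · refine le_trans ?_ hfc
      have := mul_le_mul_of_nonneg_left hu3 hK₀0.le
      rwa [mul_div_cancel₀ _ hK₀0.ne'] at this
    · have e1 : K₀ * L' / P ≤ K₀ * L' / c :=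
        div_le_div_of_nonneg_left (by positivity) hc0 hPc
      linarith
    · refine le_trans ?_ hu2
      have e1 : δ ^ (1 + β) = δ ^ (7 * β / 8) * δ ^ (1 + β / 8) := by
        rw [← Real.rpow_add hδ]
        congr 1
        ring
      have e0 : 0 < δ ^ (7 * β / 8) := Real.rpow_pos_of_pos hδ _
      calc δ ^ (1 + β) * (K₀ * P) = K₀ * δ ^ (7 * β / 8) * (δ ^ (1 + β / 8) * P) := by
            rw [e1]; ring
        _ ≤ K₀ * δ ^ (7 * β / 8) * (δ' * P) := by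
            apply mul_le_mul_of_nonneg_left _ (by positivity)
            exact mul_le_mul_of_nonneg_right hd1 hP.le
        _ ≤ K₀ * δ ^ (7 * β / 8) * 1 := mul_le_mul_of_nonneg_left hR1 (by positivity)
        _ ≤ ε₀ / K₀ / 4 := by
            rw [lt_div_iff₀ (by positivity)] at q11
            rw [le_div_iff₀ (by norm_num)]
            linarith
  · -- close
    rw [not_le] at hfc
    have hAx : 2 * K₀ * B * x i N ≤ δ' * P := by
      rcases halt with h | h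
      · exact absurd (lt_of_le_of_lt ((min_le_left _ _).trans h) hfc) (lt_irrefl _)
      · exact h
    have hxN := (G.xx N).1
    have hKB1 : 1 ≤ K₀ * B := one_le_mul_of_one_le_of_one_le hK₀ hB1
    have hxR : x i N ≤ δ' * P := by
      refine le_trans ?_ hAx
      calc x i N = 1 * x i N := (one_mul _).symm
        _ ≤ 2 * K₀ * B * x i N := mul_le_mul_of_nonneg_right (by linarith) hxN.le
    obtain ⟨l, hl1, hl2⟩ := S.close i N (hxR.trans (hfc.le.trans hε₀η))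
    have hc₁T := close_real S i hc₁0 hc₁B (R := δ' * P) rfl hxR hl1
    have hT1 : 1 ≤ μ ^ N := one_le_pow₀ G.μ1.le
    have hml := S.mpos l
    -- the lower bound of `μ ^ N`
    have hsq : c₁ * δ' ≤ (δ' * P) ^ 2 := by
      have e1 : c₁ * δ' ≤ (δ' * P) ^ (m l + 1) := by
        have e : (δ' * P) ^ (m l + 1) = ((δ' * P) ^ m l * P) * δ' := by rw [pow_succ]; ring
        rw [e]
        apply mul_le_mul_of_nonneg_right _ hd0.le
        refine le_trans ?_ hc₁T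
        exact le_mul_of_one_le_right hc₁0.le hT1
      exact e1.trans (pow_le_pow_of_le_one hR0.le hR1 (by omega))
    have hCN : c₁ / δ ≤ (C' ^ N) ^ 2 := by
      have e1 : P ^ 2 ≤ (C' ^ N) ^ 2 := pow_le_pow_left₀ hP.le (p_le G hCC N) 2
      refine le_trans ?_ e1
      rw [div_le_iff₀ hδ]
      have e2 : c₁ * δ' ≤ (P ^ 2 * δ) * δ' := by
        calc c₁ * δ' ≤ (δ' * P) ^ 2 := hsq
          _ = P ^ 2 * δ' * δ' := by ring
          _ ≤ P ^ 2 * δ * δ' := by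
              apply mul_le_mul_of_nonneg_right _ hd0.le
              exact mul_le_mul_of_nonneg_left hd2 (by positivity)
      exact le_of_mul_le_mul_right e2 hd0
    have hT2 := T_bd hC' hγ hγ0 N hβ0 hβ1 hβγ hc₁0 hc₁1 hδ q4.le hCN
    have X : Ctx β c₁ σ M H δ δ' (δ' * P) P (μ ^ N) (m l) :=
      ⟨hβ0, hβ1, hc₁0, hc₁1, hσ0, hσ1, hml, hM l, hδ, hδ1, hd1, hd2, hR1, hP, rfl, hc₁T, hT1, hT2,
        hH1, by
          rw [lt_div_iff₀ (by linarith)] at q10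
          linarith⟩
    have XA := X.A
    have hσR0 : 0 < σ * (δ' * P) := mul_pos hσ0 hR0
    have hσRσ : σ * (δ' * P) ≤ σ := mul_le_of_le_one_right hσ0.le hR1
    have hσR1 : σ * (δ' * P) ≤ 1 := hσRσ.trans hσ1
    have hδ''1 : (σ * (δ' * P)) ^ (m l + 1) ≤ δ₁ := by
      calc (σ * (δ' * P)) ^ (m l + 1) ≤ (σ * (δ' * P)) ^ 1 :=
            pow_le_pow_of_le_one hσR0.le hσR1 (by omega)
        _ = σ * (δ' * P) := pow_one _
        _ ≤ δ₁ := hσRσ.trans hσδ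
    have hδ''2 : 2 * δ ≤ (σ * (δ' * P)) ^ (m l + 1) := by
      refine le_trans ?_ XA
      exact mul_le_mul_of_nonneg_right hH2 hδ.le
    obtain ⟨w, hw1, hw2, hw3, hw4⟩ := hVT l _ hδ''2 hδ''1
    set D : ℝ := (σ * (δ' * P)) ^ (m l + 1) with hDd
    have hD0 : 0 < D := by positivity
    have hDβ : H * δ ^ (1 + β) ≤ D ^ (1 + β) := by
      have e1 : (H * δ) ^ (1 + β) ≤ D ^ (1 + β) :=
        Real.rpow_le_rpow (by positivity) XA (by linarith)
      refine le_trans ?_ e1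
      rw [Real.mul_rpow (by linarith) hδ.le]
      apply mul_le_mul_of_nonneg_right _ hδβ0.le
      calc H = H ^ (1 : ℝ) := (Real.rpow_one _).symm
        _ ≤ H ^ (1 + β) := Real.rpow_le_rpow_of_exponent_le hH1 (by linarith)
    set Y : ℝ := ‖w 0 - z l 0‖ with hYd
    have hY0 : 0 < Y := lt_of_lt_of_le (Real.rpow_pos_of_pos hD0 _) hw1
    set y : ℝ := Y ^ (((m l + 1 : ℕ) : ℝ)⁻¹) with hyd
    have hy0 : 0 < y := Real.rpow_pos_of_pos hY0 _
    have hyY : y ^ (m l + 1) = Y := Real.rpow_inv_natCast_pow hY0.le (Nat.succ_ne_zero _)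
    have hyσ : y ≤ σ * (δ' * P) := by
      rw [← pow_le_pow_iff_left₀ hy0.le hσR0.le (Nat.succ_ne_zero (m l)), hyY]
      exact hw2
    have hyσ' : (σ * (δ' * P)) ^ (1 + β) ≤ y := by
      rw [← pow_le_pow_iff_left₀ (Real.rpow_nonneg hσR0.le _) hy0.le (Nat.succ_ne_zero (m l)), hyY]
      refine le_trans (le_of_eq ?_) hw1
      rw [hDd, ← Real.rpow_natCast ((σ * (δ' * P)) ^ (1 + β)), ← Real.rpow_mul hσR0.le,
        ← Real.rpow_natCast (σ * (δ' * P)), ← Real.rpow_mul hσR0.le]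
      congr 1
      push_cast
      ring
    have hyR : y ≤ δ' * P := hyσ.trans (mul_le_of_le_one_left hR0.le hσ1)
    have XB := X.B hyσ'
    have XC := X.C hyσ'
    have hsub : ball (0 : Fin k → ℂ) (δ ^ (1 + β) / K) ⊆ ball 0 (D ^ (1 + β) / K) := by
      apply ball_subset_ball
      apply div_le_div_of_nonneg_right _ hK0.le
      refine le_trans ?_ hDβ
      exact le_mul_of_one_le_left hδβ0.le hH1
    have hBY : B * δ ^ (1 + β) ≤ Y := by
      refine le_trans ?_ (hDβ.trans hw1)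
      exact mul_le_mul_of_nonneg_right hHB hδβ0.le
    obtain ⟨q, hq1, hq2, hq3, hq4⟩ := hl2 w y (δ ^ (1 + β) / K) K hy0
      (hyσ.trans (hσRσ.trans (hσδ.trans hδη))) hyY hr0 hK1 (by
        rw [hyY]
        refine le_trans (le_of_eq ?_) hBY
        field_simp) (fun s hs s' hs' => hw3 s (hsub hs) s' (hsub hs'))
      (fun s hs => hw4 s (hsub hs))
    have hym : 0 < y ^ m l := by positivity
    refine finish S i hK₀ hK0 hδ hrρ hd2 hpl hKr q (Λ := B * K / y ^ m l) (by positivity)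
      ?_ ?_ ?_ ?_ ?_ hq4
    · have e1 : K₀ * (B * K / y ^ m l) * (δ ^ (1 + β) / K) = K₀ * B * δ ^ (1 + β) / y ^ m l := by
        field_simp
      rw [e1, div_le_iff₀ hym]
      calc K₀ * B * δ ^ (1 + β) ≤ H * δ ^ (1 + β) := by
            apply mul_le_mul_of_nonneg_right _ hδβ0.le
            linarith
        _ ≤ Y := hDβ.trans hw1
        _ = y * y ^ m l := by rw [← hyY, pow_succ]; ring
        _ ≤ δ' * P * y ^ m l := mul_le_mul_of_nonneg_right hyR hym.le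
    · intro s hs s' hs'
      have e1 := hq3 s hs s' hs'
      rw [div_mul_eq_mul_div, le_div_iff₀ hym]
      linarith
    · have e1 : K₀ * ‖q 0 - z i N‖ ≤ K₀ * (B * (y + x i N)) :=
        mul_le_mul_of_nonneg_left hq1 hK₀0.le
      have e2 : 2 * K₀ * B * y ≤ δ' * P := by
        calc 2 * K₀ * B * y ≤ 2 * K₀ * B * (σ * (δ' * P)) :=
              mul_le_mul_of_nonneg_left hyσ (by positivity)
          _ = (σ * (2 * K₀ * B)) * (δ' * P) := by ring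
          _ ≤ 1 * (δ' * P) := mul_le_mul_of_nonneg_right hσK hR0.le
          _ = δ' * P := one_mul _
      linarith
    · have e1 : K₀ * (B * K / y ^ m l) / P = (K₀ * B * K) / (y ^ m l * P) := by
        field_simp
      rw [e1]
      have e2 : (K₀ * B * K) / (y ^ m l * P) ≤ K / 2 := by
        rw [div_le_iff₀ (by positivity)]
        have e3 : 2 * K₀ * B ≤ y ^ m l * P := by linarith
        calc K₀ * B * K = K / 2 * (2 * K₀ * B) := by ring
          _ ≤ K / 2 * (y ^ m l * P) := mul_le_mul_of_nonneg_left e3 (by positivity)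
      linarith
    · have e1 : δ ^ (1 + β) * (H * P) ≤ B * ‖q 0 - z i N‖ := XC.trans hq2
      have e2 : B * (δ ^ (1 + β) * (K₀ * P)) ≤ B * ‖q 0 - z i N‖ := by
        refine le_trans ?_ e1
        have e3 : K₀ * B ≤ H := by linarith
        calc B * (δ ^ (1 + β) * (K₀ * P)) = δ ^ (1 + β) * ((K₀ * B) * P) := by ring
          _ ≤ δ ^ (1 + β) * (H * P) := by
              apply mul_le_mul_of_nonneg_left _ hδβ0.le
              exact mul_le_mul_of_nonneg_right e3 hP.le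
      exact le_of_mul_le_mul_left e2 hB0

end

theorem exists_pow (a b : ℝ) (hb : 0 < b) : ∃ n : ℕ, a / 2 ^ n ≤ b := by
  have h : Tendsto (fun n : ℕ => a / 2 ^ n) atTop (𝓝 0) := by
    have h1 := (tendsto_pow_atTop_nhds_zero_of_lt_one (r := (1 / 2 : ℝ)) (by norm_num)
      (by norm_num)).const_mul a
    rw [mul_zero] at h1
    refine h1.congr (fun n => ?_)
    rw [one_div, inv_pow, div_eq_mul_inv]
  obtain ⟨n, hn⟩ := (h.eventually (eventually_lt_nhds hb)).exists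
  exact ⟨n, hn.le⟩

theorem t_VT (h1 : S_PULL) (h2 : S_SCALE3) : S_VT := by
  intro k f v z x ρ C c μ κ m RP η B S β hβ
  rcases isEmpty_or_nonempty (Fin k) with hk | hk
  · exact ⟨1, one_pos, 1, le_rfl, fun i => hk.elim i⟩
  · obtain ⟨i₀⟩ := hk
    have G := S.good i₀
    have hη := S.η0
    have hC' : 1 < C + 1 := by linarith [G.C1]
    have hγ0 : 0 < Real.logb (C + 1) μ := Real.logb_pos hC' G.μ1
    have hγ : (C + 1) ^ Real.logb (C + 1) μ = μ :=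
      Real.rpow_logb (by linarith) hC'.ne' (by linarith [G.μ1])
    set γ := Real.logb (C + 1) μ with hγd
    set β' : ℝ := min β (min (γ / 16) 1) with hβ'd
    have hβ'0 : 0 < β' := lt_min hβ (lt_min (by positivity) one_pos)
    have hβ'β : β' ≤ β := min_le_left _ _
    have hβ'1 : β' ≤ 1 := (min_le_right _ _).trans (min_le_right _ _)
    have hβ'γ : 16 * β' ≤ γ := by
      have : β' ≤ γ / 16 := (min_le_right _ _).trans (min_le_left _ _)
      linarith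
    set δ₁ : ℝ := min (min 1 η) ((1 / 8 : ℝ) ^ (1 / β')) with hδ₁d
    have hδ₁ : 0 < δ₁ := lt_min (lt_min one_pos hη) (Real.rpow_pos_of_pos (by norm_num) _)
    have hδ₁1 : δ₁ ≤ 1 := (min_le_left _ _).trans (min_le_left _ _)
    have hδ₁η : δ₁ ≤ η := (min_le_left _ _).trans (min_le_right _ _)
    have h8 : 8 * δ₁ ^ β' ≤ 1 := by
      have e1 : δ₁ ^ β' ≤ ((1 / 8 : ℝ) ^ (1 / β')) ^ β' :=
        Real.rpow_le_rpow hδ₁.le (min_le_right _ _) hβ'0.le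
      rw [← Real.rpow_mul (by norm_num), one_div_mul_cancel hβ'0.ne', Real.rpow_one] at e1
      linarith
    choose Km hKm1 hKm using fun i => step S h1 h2 hC' (by linarith : C ≤ C + 1) hγ hγ0 hβ'0 hβ'1
      hβ'γ hδ₁ hδ₁1 hδ₁η i
    have hall := eventually_all.mpr hKm
    obtain ⟨u, hu0, hu⟩ := mem_nhdsGT_iff_exists_Ioc_subset.mp hall
    obtain ⟨n₀, hn₀⟩ := exists_pow δ₁ u hu0
    obtain ⟨Kb, hKb1, hKb⟩ := base S hβ'0 hδ₁ hδ₁1 h8 n₀
    set K : ℝ := max Kb (∑ i, Km i) with hKd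
    have hKK : ∀ i, Km i ≤ K := fun i =>
      (Finset.single_le_sum (f := Km) (fun j _ => by linarith [hKm1 j]) (Finset.mem_univ i)).trans
        (le_max_right _ _)
    have hK1 : 1 ≤ K := hKb1.trans (le_max_left _ _)
    have claim : ∀ n : ℕ, ∀ (i : Fin k) (δ : ℝ), δ₁ / 2 ^ (n₀ + n) ≤ δ → δ ≤ δ₁ →
        VT z RP β' K i δ := by
      intro n
      induction n with
      | zero => exact fun i δ h3 h4 => hKb K (le_max_left _ _) i δ h3 h4
      | succ n ih =>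
        intro i δ h3 h4
        by_cases h5 : δ₁ / 2 ^ (n₀ + n) ≤ δ
        · exact ih i δ h5 h4
        · rw [not_le] at h5
          have e0 : 2 * (δ₁ / 2 ^ (n₀ + (n + 1))) = δ₁ / 2 ^ (n₀ + n) := by
            rw [← add_assoc, pow_succ]; field_simp
          have hδ0 : 0 < δ := lt_of_lt_of_le (by positivity) h3
          have e1 : δ₁ / 2 ^ (n₀ + n) ≤ δ₁ / 2 ^ n₀ :=
            div_le_div_of_nonneg_left hδ₁.le (by positivity)
              (pow_le_pow_right₀ (by norm_num) (by omega))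
          have hmem : δ ∈ Ioc 0 u := ⟨hδ0, (h5.le.trans e1).trans hn₀⟩
          refine hu hmem i K (hKK i) (fun l δ'' h6 h7 => ih l δ'' ?_ h7)
          linarith
    refine ⟨δ₁, hδ₁, K, hK1, fun i δ hδ hδ' => ?_⟩
    obtain ⟨n, hn⟩ := exists_pow δ₁ δ hδ
    refine VT_mono hδ (hδ'.trans hδ₁1) (by linarith) hβ'β (claim n i δ ?_ hδ')
    refine le_trans ?_ hn
    exact div_le_div_of_nonneg_left hδ₁.le (by positivity)
      (pow_le_pow_right₀ (by norm_num) (by omega))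

end Pool.Agent.H315.BT207
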